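import Pool.Agent.H18.XX.TB

/-!
Row NUZ of the board exh: numbers.
-/

set_option autoImplicit false

namespace Pool.Agent.H95.XX

open Pool.Agent.H18.XX

theorem nat_b {j L2 : ℕ} (hj : 9 ≤ j) (h1 : 16 * j ≤ L2) :
    2 ^ (3 * j + 5) * ((2 * (4 * j + 9) + 1) * 4 ^ (4 * j + 9) * 2 ^ L2) ≤ 2 ^ (2 * L2) := by
  have h2 : 2 * (4 * j + 9) + 1 ≤ 2 ^ (j + 4) := by
    have h3 : j + 1 ≤ 2 ^ j := Nat.lt_two_pow_self
    rw [pow_add]
    omega
  have h4 : (4 : ℕ) ^ (4 * j + 9) = 2 ^ (8 * j + 18) := by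
    rw [show (4 : ℕ) = 2 ^ 2 by norm_num, ← pow_mul]
    congr 1
    ring
  rw [h4]
  calc 2 ^ (3 * j + 5) * ((2 * (4 * j + 9) + 1) * 2 ^ (8 * j + 18) * 2 ^ L2) ≤
      2 ^ (3 * j + 5) * (2 ^ (j + 4) * 2 ^ (8 * j + 18) * 2 ^ L2) :=
        Nat.mul_le_mul_left _ (Nat.mul_le_mul_right _ (Nat.mul_le_mul_right _ h2))
    _ = 2 ^ (12 * j + 27 + L2) := by
        rw [← pow_add, ← pow_add, ← pow_add]
        congr 1
        ring
    _ ≤ 2 ^ (2 * L2) := Nat.pow_le_pow_right (by norm_num) (by omega)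

theorem pf_NUZ : T_NUZ := by
  refine ⟨2 ^ 12, ?_⟩
  intro n hn L j hL hj
  have hn0 : n ≠ 0 := by
    rintro rfl
    norm_num at hn
  have hL12 : 12 ≤ L := by
    rw [hL]
    exact (Nat.le_log_iff_pow_le (by norm_num) hn0).2 hn
  have hLn : 2 ^ L ≤ n := by
    rw [hL]
    exact Nat.pow_log_le_self 2 hn0
  obtain ⟨L2, hL2⟩ : ∃ L2 : ℕ, L2 = L ^ 2 := ⟨_, rfl⟩
  have hL144 : 144 ≤ L2 := by
    rw [hL2]
    nlinarith
  rw [← hL2] at hj ⊢
  have hj9 : 9 ≤ j := by omega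
  have h16 : 16 * j ≤ L2 := by omega
  have hb := nat_b hj9 h16
  obtain ⟨e, he⟩ : ∃ e : ℕ, e = L2 / 8 := ⟨_, rfl⟩
  have he1 : e ≤ 2 * j + 1 := by omega
  have heL : 8 * e ≤ L2 := by omega
  -- the exponents
  have hcube : 2 * j + e + 9 ≤ (L + 18) ^ 3 := by
    have h1 : L ^ 2 ≤ (L + 18) ^ 3 := by
      calc L ^ 2 ≤ (L + 18) ^ 2 := Nat.pow_le_pow_left (by omega) 2
        _ ≤ (L + 18) ^ 3 := Nat.pow_le_pow_right (by omega) (by norm_num)
    rw [← hL2] at h1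
    omega
  have hexp : 2 * j + e + 9 ≤ n / 3 := by
    have h1 : 3 * L ^ 2 ≤ 2 ^ L := by
      clear hcube he1 heL hb hj hj9 h16 hL2 hn hLn hL hn0 hL144
      induction L, hL12 using Nat.le_induction with
      | base => norm_num
      | succ k hk ih =>
        rw [pow_succ 2 k]
        nlinarith
    rw [← hL2] at h1
    omega
  refine ⟨?_, hb, ?_, ?_⟩
  · refine le_trans ?_ hb
    exact Nat.le_mul_of_pos_left _ (by positivity)
  · push_cast
    have h1 : (2 : ℝ) ^ (3 * j + 5) * (1 / 2) ^ (4 * j + 9) = (1 / 2) ^ j / 16 := by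
      have h2 : (1 / 2 : ℝ) ^ (4 * j + 9) =
          (1 / 2) ^ (3 * j + 5) * ((1 / 2) ^ j * (1 / 2) ^ 4) := by
        rw [← pow_add, ← pow_add]
        congr 1
        ring
      rw [h2, ← mul_assoc, ← mul_pow]
      norm_num
      ring
    rw [h1]
    have : (0 : ℝ) < (1 / 2) ^ j := by positivity
    linarith
  · rw [← he]
    obtain ⟨x, hx⟩ : ∃ x : ℝ, x = (1 / 2) ^ j := ⟨_, rfl⟩
    obtain ⟨R, hR⟩ : ∃ R : ℝ, R = (1 / 2) ^ e := ⟨_, rfl⟩
    obtain ⟨u, hu⟩ : ∃ u : ℝ, u = (1 / 2) ^ (n / 3) := ⟨_, rfl⟩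
    obtain ⟨v, hv⟩ : ∃ v : ℝ, v = (1 / 2) ^ (L + 18) ^ 3 := ⟨_, rfl⟩
    have hx0 : 0 < x := by rw [hx]; positivity
    have hx1 : x ≤ 1 := by rw [hx]; exact pow_le_one₀ (by norm_num) (by norm_num)
    have hR0 : 0 < R := by rw [hR]; positivity
    have hexR : (1 / 2 : ℝ) ^ (2 * j + e + 9) = x ^ 2 * R / 512 := by
      rw [hx, hR, pow_add, pow_add, mul_comm 2 j, pow_mul]
      norm_num
      ring
    have hu1 : u ≤ x ^ 2 * R / 512 := by
      rw [hu, ← hexR]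
      exact pow_le_pow_of_le_one (by norm_num) (by norm_num) hexp
    have hv1 : v ≤ x ^ 2 * R / 512 := by
      rw [hv, ← hexR]
      exact pow_le_pow_of_le_one (by norm_num) (by norm_num) hcube
    have hu0 : 0 ≤ u := by rw [hu]; positivity
    have hv0 : 0 ≤ v := by rw [hv]; positivity
    have hxR : x ^ 2 ≤ 2 * R := by
      have h1 : x ^ 2 = 2 * (1 / 2) ^ (2 * j + 1) := by
        rw [hx, ← pow_mul, mul_comm j 2, pow_succ]
        ring
      rw [h1, hR]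
      exact mul_le_mul_of_nonneg_left
        (pow_le_pow_of_le_one (by norm_num) (by norm_num) he1) (by norm_num)
    have hB : (1 : ℝ) / ((2 ^ (3 * j + 5) : ℕ) : ℝ) = x ^ 3 / 32 := by
      push_cast
      rw [hx, ← pow_mul, mul_comm j 3, pow_add, one_div_pow]
      field_simp
      norm_num
    rw [← hx, ← hR, ← hu, ← hv, hB]
    have e1 : 32 / x ^ 2 * u ≤ R / 16 := by
      calc 32 / x ^ 2 * u ≤ 32 / x ^ 2 * (x ^ 2 * R / 512) :=
            mul_le_mul_of_nonneg_left hu1 (by positivity)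
        _ = R / 16 := by
            field_simp
            norm_num
    have e2 : 2 / x * (x ^ 3 / 32 + 2 * u) ≤ R / 8 + R / 128 := by
      calc 2 / x * (x ^ 3 / 32 + 2 * u) ≤ 2 / x * (x ^ 3 / 32 + 2 * (x ^ 2 * R / 512)) := by
            gcongr
        _ = x ^ 2 / 16 + x * R / 128 := by
            field_simp
            ring
        _ ≤ R / 8 + R / 128 := by nlinarith
    have e3 : (36 / x ^ 2 + 4 / x) * v ≤ R / 8 := by
      calc (36 / x ^ 2 + 4 / x) * v ≤ (36 / x ^ 2 + 4 / x) * (x ^ 2 * R / 512) :=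
            mul_le_mul_of_nonneg_left hv1 (by positivity)
        _ = (36 + 4 * x) * R / 512 := by
            field_simp
        _ ≤ R / 8 := by nlinarith
    nlinarith

end Pool.Agent.H95.XX
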